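import Pool.Agent.helper69.GR2B.Spec

set_option autoImplicit false

open Complex Metric Set Filter Topology MeasureTheory
open MPS (om)
open PPS (pre TT fd)
open XPS (Df er dens tau)
open Pool.Agent.helper16.Multibrot

noncomputable section

namespace GR

theorem BNN : BNN_stmt := by
  intro Q hQ
  have hlQ : 0 ≤ Real.log Q := Real.log_nonneg hQ
  refine ⟨4 + 2 * Real.log Q, by linarith, fun S hS => ?_⟩
  have hlS : 0 ≤ Real.log S := Real.log_nonneg hS
  set W : ℝ := 1 + Real.log S with hW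
  have hW1 : 1 ≤ W := by linarith
  have hlW : 0 ≤ Real.log W := Real.log_nonneg hW1
  have hQW : 1 ≤ Q * W := by nlinarith
  have hl2 : (1 : ℝ) / 2 ≤ Real.log 2 := by
    have := Real.log_two_gt_d9
    linarith
  have hl20 : 0 < Real.log 2 := by linarith
  have hlb : Real.logb 2 (Q * W) = (Real.log Q + Real.log W) / Real.log 2 := by
    rw [Real.logb, Real.log_mul (by linarith) (by linarith)]
  have hlb0 : 0 ≤ Real.logb 2 (Q * W) := by
    rw [hlb]; positivity
  have hlb2 : Real.logb 2 (Q * W) ≤ 2 * (Real.log Q + Real.log W) := by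
    rw [hlb, div_le_iff₀ hl20]
    nlinarith
  refine ⟨⌈Real.logb 2 (Q * W)⌉₊ + 1, by omega, ?_, ?_⟩
  · have h1 : Q * W = (2 : ℝ) ^ (Real.logb 2 (Q * W)) := by
      rw [Real.rpow_logb (by norm_num) (by norm_num) (by linarith)]
    have h2 : Real.logb 2 (Q * W) ≤ ((⌈Real.logb 2 (Q * W)⌉₊ + 1 : ℕ) : ℝ) := by
      push_cast
      linarith [Nat.le_ceil (Real.logb 2 (Q * W))]
    calc Q * W = (2 : ℝ) ^ (Real.logb 2 (Q * W)) := h1
      _ ≤ (2 : ℝ) ^ (((⌈Real.logb 2 (Q * W)⌉₊ + 1 : ℕ) : ℝ)) :=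
          Real.rpow_le_rpow_of_exponent_le (by norm_num) h2
      _ = 2 ^ (⌈Real.logb 2 (Q * W)⌉₊ + 1) := Real.rpow_natCast _ _
  · have h3 : (⌈Real.logb 2 (Q * W)⌉₊ : ℝ) < Real.logb 2 (Q * W) + 1 := Nat.ceil_lt_add_one hlb0
    push_cast
    nlinarith

end GR
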